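import Pool.Agent.R280.OrdBanach

/-!
# Property (S) implies normality of the cone (MP_5127fd_an, Q1: proved)

If the cone is not normal there are `0 ≤ x_k ≤ y_k` with `‖y_k‖ ≤ 2^{-k}` and `‖x_k‖ ≥ 2^k`. The
partial sums of `∑ t_k x_k` (`0 ≤ t ∈ ℓ_∞`) are bounded by a multiple of `∑ y_k`, and their suprema
define a positive linear map `T : ℓ_∞ → X` with `T e_k = x_k`. The graph of `T` is closed, because
the cone is closed, so `T` is bounded, a contradiction.
-/

set_option autoImplicit false

universe u

open Pool.Agent.R280.OrdBanach

namespace Pool.Agent.Results.MP_5127fd_an.NormalCone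

/-- Let `X` be a real Banach space ordered by the closed cone `K`. If every increasing order bounded
sequence in `X` has a supremum, then `K` is normal. -/
theorem result (X : Type u) [NormedAddCommGroup X] [NormedSpace ℝ X] [CompleteSpace X] (K : Set X)
    (hK : IsClosedCone K) (hS : PropertyS K) : IsNormalCone K :=
  normal_of_propertyS hK hS

end Pool.Agent.Results.MP_5127fd_an.NormalCone
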